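import Pool.Agent.Y921.SR.Fin

/-!
# Singular matrices of logarithms: short windows

After deleting at most `dim V + 2` numbers from a short window `{t + β : β algebraic of degree ≤ d and height ≤ H}`,
`t ≥ (H + 2) ^ E`, Q1 holds over `K` for the space generated by `V` and any logarithms of any `r` of the other numbers,
provided that Q1 holds over `K` for `V`. For rational numbers `β` and `K = ℚ` it suffices to delete at most `dim V + 1`
numbers, so a single one for `V = 0`.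

The proof uses helper916's theorem on logarithms in short windows (`Pool.Agent.Y916.t_window`, G-functions with unknown
constants) and `Pool.Agent.Y921.SR.family` on identically singular families of matrices.
-/

set_option autoImplicit false

open Module

namespace Pool.Agent.Y921.Kept.WindowSpaces

/-- Every singular square matrix, of any size, with entries in the `K`-space `V` satisfies the conclusion of Q1 over
`K`. -/
def Q1Holds {K : Type} [Field K] [Algebra K ℂ] (V : Submodule K ℂ) : Prop :=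
  ∀ N : ℕ, 1 ≤ N → ∀ M : Matrix (Fin N) (Fin N) ℂ, (∀ i j, M i j ∈ V) → M.det = 0 →
    ∃ w v : Fin N → K, w ≠ 0 ∧ v ≠ 0 ∧ ∑ i, ∑ j, algebraMap K ℂ (w i) * M i j * algebraMap K ℂ (v j) = 0

/-- The numbers `l_i` are `K`-linearly independent modulo `V`, and Q1 holds for the space generated by `V` and the
`l_i`. -/
def Extends {K : Type} [Field K] [Algebra K ℂ] (V : Submodule K ℂ) {r : ℕ} (l : Fin r → ℂ) : Prop :=
  finrank K (V ⊔ Submodule.span K (Set.range l) : Submodule K ℂ) = finrank K V + r ∧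
    Q1Holds (V ⊔ Submodule.span K (Set.range l))

theorem q1_iff {K : Type} [Field K] [Algebra K ℂ] (V : Submodule K ℂ) :
    Q1Holds V ↔ Pool.Agent.Y921.SR.ZeroProp V := by
  have h : ∀ (N : ℕ) (M : Matrix (Fin N) (Fin N) ℂ) (w v : Fin N → K),
      ∑ i, ∑ j, algebraMap K ℂ (w i) * M i j * algebraMap K ℂ (v j) = ∑ i, ∑ j, (w i * v j) • M i j := by
    intro N M w v
    refine Finset.sum_congr rfl fun i _ => Finset.sum_congr rfl fun j _ => ?_
    rw [Algebra.smul_def, map_mul]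
    ring
  unfold Q1Holds Pool.Agent.Y921.SR.ZeroProp
  simp only [h]

theorem result :
    -- number fields
    (∀ r d m : ℕ, ∃ E : ℕ, ∀ H t : ℕ, (H + 2) ^ E ≤ t →
      ∀ K : IntermediateField ℚ ℂ, FiniteDimensional ℚ K → finrank ℚ K ≤ d →
      ∀ V : Submodule K ℂ, Module.Finite K V → finrank K V ≤ m → (finrank K V ≤ 1 ∨ Q1Holds V) →
      ∃ S : Finset ℂ, S.card ≤ m + 2 ∧ ∀ β : Fin r → ℂ, Function.Injective β → (∀ i, β i ∉ S ∧ β i ≠ 0) →
        (∀ i, ∃ p : Polynomial ℤ, p ≠ 0 ∧ p.natDegree ≤ d ∧ (∀ j, |p.coeff j| ≤ (H : ℤ)) ∧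
          Polynomial.aeval (β i) p = 0) →
        ∀ l : Fin r → ℂ, (∀ i, Complex.exp (l i) = t + β i) → Extends V l) ∧
    -- rational numbers
    (∀ r m : ℕ, ∃ E : ℕ, ∀ H t : ℕ, (H + 2) ^ E ≤ t →
      ∀ V : Submodule ℚ ℂ, Module.Finite ℚ V → finrank ℚ V ≤ m → (finrank ℚ V ≤ 1 ∨ Q1Holds V) →
      ∃ S : Finset ℚ, S.card ≤ m + 1 ∧ ∀ β : Fin r → ℚ, Function.Injective β →
        (∀ i, β i ∉ S ∧ β i ≠ 0 ∧ |(β i).num| ≤ H ∧ (β i).den ≤ H) →
        Extends V (fun i => ((Real.log (t + β i) : ℝ) : ℂ))) := by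
  refine ⟨fun r d m => ?_, fun r m => ?_⟩
  · obtain ⟨E, h⟩ := Pool.Agent.Y921.SR.window_field r d m
    refine ⟨E, fun H t ht K hK hKd V hV hVm hV0 => ?_⟩
    have hV1 : Pool.Agent.Y921.SR.ZeroProp V := by
      rcases hV0 with h1 | h1
      · exact Pool.Agent.Y921.SR.zeroProp_small V h1
      · exact (q1_iff V).1 h1
    obtain ⟨S, hS, h2⟩ := h H t ht K hK hKd V hV hVm hV1
    refine ⟨S, hS, fun β hinj hβ hβa l hl => ?_⟩
    obtain ⟨h3, h4⟩ := h2 β hinj hβ hβa l hl
    exact ⟨h3, (q1_iff _).2 h4⟩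
  · obtain ⟨E, h⟩ := Pool.Agent.Y921.SR.window_rat r m
    refine ⟨E, fun H t ht V hV hVm hV0 => ?_⟩
    have hV1 : Pool.Agent.Y921.SR.ZeroProp V := by
      rcases hV0 with h1 | h1
      · exact Pool.Agent.Y921.SR.zeroProp_small V h1
      · exact (q1_iff V).1 h1
    obtain ⟨S, hS, h2⟩ := h H t ht V hV hVm hV1
    refine ⟨S, hS, fun β hinj hβ => ?_⟩
    obtain ⟨h3, h4⟩ := h2 β hinj hβ
    exact ⟨h3, (q1_iff _).2 h4⟩

end Pool.Agent.Y921.Kept.WindowSpaces
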